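import Pool.Agent.W851.BE.Stm

/-!
# Local injectivity at points of local degree one (part INJ of project BE)
-/

open Polynomial Topology Filter MeasureTheory
open Pool.Agent.W95.BK Pool.Agent.W851.BE

namespace Pool.Agent.W298.BE.Inj

universe u

lemma card_two {α : Type*} (s : Multiset α) (p q r : α → Prop) [DecidablePred p]
    [DecidablePred q] [DecidablePred r] (hpq : ∀ a, p a → q a → False)
    (hp : ∀ a, p a → r a) (hq : ∀ a, q a → r a) :
    (s.filter p).card + (s.filter q).card ≤ (s.filter r).card := by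
  rw [← Multiset.card_add, Multiset.filter_add_filter]
  have h1 : s.filter (fun a => p a ∧ q a) = 0 := by
    rw [Multiset.filter_eq_nil]
    rintro a - ⟨h, h'⟩
    exact hpq a h h'
  rw [h1, add_zero]
  refine Multiset.card_le_card (Multiset.monotone_filter_right s ?_)
  rintro a (h | h)
  · exact hp a h
  · exact hq a h

theorem main : S_LDEX.{u} → S_ACTC.{u} → S_T2.{u} → S_DENSE.{u} → S_INJ.{u} := by
  intro hLD hAC hT2 hDE K _ _ _ f x hx hd
  obtain ⟨m, hm1, hm, hme⟩ := hLD K f x hx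
  have hm' : m = 1 := by rw [← hme, hd]
  subst hm'
  obtain ⟨U, hU, -, hUc⟩ := hm Set.univ univ_mem
  obtain ⟨W₀, hW₀, hW₀c⟩ := mem_comap.1 hUc
  obtain ⟨W, hWW, hWo, hxW⟩ := mem_nhds_iff.1 hW₀
  have hcont : Continuous f.act := hAC K f
  have : T2Space (P1B K) := (hT2 K).2.2.1
  have hcnt : ∀ b : K, ((cl b : BA K) : P1B K) ∈ W → cnt f U b = 1 := fun b hb =>
    hW₀c (a := b) (hWW hb)
  have hVo : IsOpen (interior U ∩ f.act ⁻¹' W) :=
    isOpen_interior.inter (hWo.preimage hcont)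
  refine ⟨interior U ∩ f.act ⁻¹' W, hVo.mem_nhds ⟨mem_interior_iff_mem_nhds.2 hU, hxW⟩, ?_⟩
  intro y z hy hz hyU hzU hyz
  by_contra hne
  have hne' : (y : P1B K) ≠ (z : P1B K) := fun h => hne (OnePoint.coe_injective h)
  obtain ⟨V₁, V₂, hV₁, hV₂, hyV, hzV, hdis⟩ := t2_separation hne'
  obtain ⟨m₁, hm₁, hl₁, -⟩ := hLD K f y hy
  obtain ⟨m₂, hm₂, hl₂, -⟩ := hLD K f z hz
  obtain ⟨U₁, hU₁, hU₁s, hU₁c⟩ := hl₁ (V₁ ∩ (interior U ∩ f.act ⁻¹' W))
    ((hV₁.inter hVo).mem_nhds ⟨hyV, hyU⟩)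
  obtain ⟨U₂, hU₂, hU₂s, hU₂c⟩ := hl₂ (V₂ ∩ (interior U ∩ f.act ⁻¹' W))
    ((hV₂.inter hVo).mem_nhds ⟨hzV, hzU⟩)
  have hWe : ∀ᶠ b in toward (f.act (y : P1B K)), ((cl b : BA K) : P1B K) ∈ W :=
    mem_comap.2 ⟨W, hWo.mem_nhds hyU.2, fun b hb => hb⟩
  rw [← hyz] at hU₂c
  have : (toward (f.act (y : P1B K))).NeBot := hDE K _
  obtain ⟨b, ⟨hb₁, hb₂⟩, hb₃⟩ := ((hU₁c.and hU₂c).and hWe).exists
  have h1 := hcnt b hb₃
  have h2 : cnt f U₁ b + cnt f U₂ b ≤ cnt f U b := by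
    classical
    unfold cnt
    refine card_two _ _ _ _ ?_ ?_ ?_
    · intro a ha ha'
      exact Set.disjoint_left.1 hdis (hU₁s ha).1 (hU₂s ha').1
    · intro a ha
      exact interior_subset (hU₁s ha).2.1
    · intro a ha
      exact interior_subset (hU₂s ha).2.1
  omega

end Pool.Agent.W298.BE.Inj
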